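import Pool.Agent.R603.Mon

set_option autoImplicit false

/-!
# A closed monoid with automatic continuity but without automatic homeomorphicity

The definitions are in `Pool.Agent.R603.Mon`. The example is the countable monoid `ω + 1` with the
operation `max`: it is a closed discrete submonoid of `Ω ^ Ω` by its action on itself, hence every
homomorphism from it is continuous, and it is isomorphic to a compact (not discrete) submonoid of
`Ω ^ Ω`, the limit of the monoids `{0, ..., n}` with the operation `max`.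
-/

namespace Pool.Agent.Results.MP_fafee5_lc.CountableExample

open Pool.Agent.R603.Mon Filter

/-- The maps `x ↦ max s x` on `Ω`, a copy of `ω + 1`. -/
noncomputable def f {Ω : Type} (e : Ω ≃ ℕ∞) (s : ℕ∞) : Function.End Ω := fun x => e.symm (max s (e x))

/-- The maps `(n, x) ↦ (n, max (min s n) x)` on `Ω`, a copy of `ℕ × ℕ`. -/
noncomputable def g {Ω : Type} (e : Ω ≃ ℕ × ℕ) (s : ℕ∞) : Function.End Ω := fun x =>
  e.symm ((e x).1, max (min s ((e x).1 : ℕ∞)).toNat (e x).2)

/-- The monoid of the maps `f s`. -/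
noncomputable def S {Ω : Type} (e : Ω ≃ ℕ∞) : Submonoid (Function.End Ω) where
  carrier := Set.range (f e)
  mul_mem' := by
    rintro _ _ ⟨s, rfl⟩ ⟨t, rfl⟩
    refine ⟨max s t, ?_⟩
    funext x
    change _ = e.symm (max s (e (e.symm (max t (e x)))))
    simp [f, max_assoc]
  one_mem' := ⟨⊥, by funext x; simp [f, Function.End.one_def]⟩

theorem g_mul {Ω : Type} (e : Ω ≃ ℕ × ℕ) (s t : ℕ∞) : g e (max s t) = g e s * g e t := by
  funext x
  change _ = e.symm _
  simp only [g, Equiv.apply_symm_apply, EmbeddingLike.apply_eq_iff_eq, Prod.mk.injEq, true_and]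
  generalize (e x).1 = n
  generalize (e x).2 = m
  have h : min (max s t) (n : ℕ∞) = max (min s n) (min t n) := min_max_distrib_right _ _ _
  rw [h]
  have h1 : ∀ u : ℕ∞, ∃ k : ℕ, min u (n : ℕ∞) = k := by
    intro u
    have : min u (n : ℕ∞) ≠ ⊤ := ne_top_of_le_ne_top (by simp) (min_le_right _ _)
    exact ⟨_, (ENat.natCast_toNat this).symm⟩
  obtain ⟨k, hk⟩ := h1 s
  obtain ⟨l, hl⟩ := h1 t
  rw [hk, hl]
  have : max (k : ℕ∞) (l : ℕ∞) = ((max k l : ℕ) : ℕ∞) := by
    exact_mod_cast rfl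
  rw [this]
  simp only [ENat.toNat_natCast]
  omega

/-- The monoid of the maps `g s`. -/
noncomputable def T {Ω : Type} (e : Ω ≃ ℕ × ℕ) : Submonoid (Function.End Ω) where
  carrier := Set.range (g e)
  mul_mem' := by
    rintro _ _ ⟨s, rfl⟩ ⟨t, rfl⟩
    exact ⟨max s t, g_mul e s t⟩
  one_mem' := ⟨⊥, by
    funext x
    change e.symm _ = x
    have h : (min (⊥ : ℕ∞) ((e x).1 : ℕ∞)).toNat = 0 := by
      rw [min_eq_left bot_le]; rfl
    rw [h]
    simp⟩

theorem g_zero {Ω : Type} (e : Ω ≃ ℕ × ℕ) (s : ℕ∞) (n : ℕ) :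
    (e (g e s (e.symm (n, 0)))).2 = (min s (n : ℕ∞)).toNat := by
  simp [g]

theorem f_inj {Ω : Type} (e : Ω ≃ ℕ∞) : Function.Injective (f e) := by
  intro s t h
  have := congrFun h (e.symm ⊥)
  simpa [f] using this

theorem g_inj {Ω : Type} (e : Ω ≃ ℕ × ℕ) : Function.Injective (g e) := by
  intro s t h
  have h1 : ∀ n : ℕ, (min s (n : ℕ∞)).toNat = (min t (n : ℕ∞)).toNat := by
    intro n
    rw [← g_zero e s n, h, g_zero e t n]
  have key : ∀ s t : ℕ∞, (∀ n : ℕ, (min s (n : ℕ∞)).toNat = (min t (n : ℕ∞)).toNat) → s ≤ t := by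
    intro s t h1
    by_contra hcon
    rw [not_le] at hcon
    have ht : t ≠ ⊤ := ne_top_of_lt hcon
    obtain ⟨m, rfl⟩ : ∃ m : ℕ, t = m := ⟨_, (ENat.natCast_toNat ht).symm⟩
    have h2 := h1 (m + 1)
    have h3 : ((m + 1 : ℕ) : ℕ∞) ≤ s := by
      have := Order.add_one_le_of_lt hcon
      exact_mod_cast this
    rw [min_eq_right h3, min_eq_left (by exact_mod_cast Nat.le_succ m)] at h2
    simp only [ENat.toNat_natCast] at h2
    omega
  exact le_antisymm (key s t h1) (key t s fun n => (h1 n).symm)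

theorem mem_closure_iff_fin {Ω : Type} (A : Set (Function.End Ω)) (h : Function.End Ω) :
    h ∈ @closure _ (fullTop Ω) A ↔ ∀ F : Finset Ω, ∃ a ∈ A, ∀ x ∈ F, a x = h x := by
  let _ : TopologicalSpace Ω := ⊥
  have : DiscreteTopology Ω := ⟨rfl⟩
  refine (@mem_closure_iff (Ω → Ω) Pi.topologicalSpace h A).trans ?_
  constructor
  · intro hh F
    obtain ⟨y, hy1, hy2⟩ := hh {y | ∀ x ∈ F, y x = h x} (by
      have : {y : Ω → Ω | ∀ x ∈ F, y x = h x} = ⋂ x ∈ F, (fun y : Ω → Ω => y x) ⁻¹' {h x} := by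
        ext y; simp
      rw [this]
      apply isOpen_biInter_finset
      intro x _
      exact (isOpen_discrete _).preimage (continuous_apply x)) (by
      intro x _; rfl)
    exact ⟨y, hy2, hy1⟩
  · intro hh o ho hho
    obtain ⟨I, u, hu1, hu2⟩ := isOpen_pi_iff.1 ho h hho
    obtain ⟨y, hy1, hy2⟩ := hh I
    refine ⟨y, hu2 fun x hx => ?_, hy1⟩
    rw [hy2 x hx]
    exact (hu1 x hx).2

theorem isClosed_of {Ω : Type} (A : Set (Function.End Ω))
    (h : ∀ k : Function.End Ω, (∀ F : Finset Ω, ∃ a ∈ A, ∀ x ∈ F, a x = k x) → k ∈ A) :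
    @IsClosed _ (fullTop Ω) A := by
  refine (@closure_subset_iff_isClosed _ (fullTop Ω) A).1 ?_
  intro k hk
  exact h k ((mem_closure_iff_fin A k).1 hk)

theorem S_closed {Ω : Type} (e : Ω ≃ ℕ∞) : IsClosedMonoid (S e) := by
  classical
  apply isClosed_of
  intro k hk
  refine ⟨e (k (e.symm ⊥)), ?_⟩
  funext x
  obtain ⟨_, ⟨s, rfl⟩, hs⟩ := hk {e.symm ⊥, x}
  have h1 := hs (e.symm ⊥) (by simp)
  have h2 := hs x (by simp)
  rw [← h2]
  have h3 : s = e (k (e.symm ⊥)) := by
    rw [← h1]; simp [f]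
  rw [← h3]

theorem T_closed {Ω : Type} (e : Ω ≃ ℕ × ℕ) : IsClosedMonoid (T e) := by
  classical
  apply isClosed_of
  intro k hk
  by_cases hc : ∃ n : ℕ, (e (k (e.symm (n, 0)))).2 < n
  · obtain ⟨n, hn⟩ := hc
    refine ⟨((e (k (e.symm (n, 0)))).2 : ℕ∞), ?_⟩
    funext x
    obtain ⟨_, ⟨s, rfl⟩, hs⟩ := hk {e.symm (n, 0), x}
    have h1 := hs (e.symm (n, 0)) (by simp)
    have h2 := hs x (by simp)
    rw [← h2, ← h1, g_zero]
    rw [← h1, g_zero] at hn
    congr 1
    have hs' : s < n := by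
      by_contra hcon
      rw [min_eq_right (not_lt.1 hcon)] at hn
      simp at hn
    rw [min_eq_left hs'.le, ENat.natCast_toNat (ne_top_of_lt hs')]
  · push Not at hc
    refine ⟨⊤, ?_⟩
    funext x
    obtain ⟨_, ⟨s, rfl⟩, hs⟩ := hk {e.symm ((e x).1, 0), x}
    have h1 := hs (e.symm ((e x).1, 0)) (by simp)
    have h2 := hs x (by simp)
    have h3 := hc (e x).1
    rw [← h1, g_zero] at h3
    have h4 : ((e x).1 : ℕ∞) ≤ s := by
      by_contra hcon
      rw [not_le] at hcon
      rw [min_eq_left hcon.le] at h3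
      obtain ⟨m, rfl⟩ : ∃ m : ℕ, s = m := ⟨_, (ENat.natCast_toNat (ne_top_of_lt hcon)).symm⟩
      simp only [ENat.toNat_natCast] at h3
      exact absurd (by exact_mod_cast hcon : m < (e x).1) (not_lt.2 h3)
    rw [← h2]
    simp only [g]
    rw [min_eq_right le_top, min_eq_right h4]

/-- The isomorphism. -/
noncomputable def iso {Ω : Type} (e : Ω ≃ ℕ∞) (e' : Ω ≃ ℕ × ℕ) : S e ≃* T e' :=
  MulEquiv.mk' ((Equiv.ofInjective (f e) (f_inj e)).symm.trans (Equiv.ofInjective (g e') (g_inj e')))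
    (by
      rintro ⟨_, s, rfl⟩ ⟨_, t, rfl⟩
      have h1 : (⟨f e s, s, rfl⟩ : S e) * (⟨f e t, t, rfl⟩ : S e) = ⟨f e (max s t), _, rfl⟩ := by
        apply Subtype.ext
        funext x
        change e.symm (max s (e (e.symm (max t (e x))))) = e.symm (max (max s t) (e x))
        simp [max_assoc]
      have h2 : ∀ u : ℕ∞, (Equiv.ofInjective (f e) (f_inj e)).symm ⟨f e u, u, rfl⟩ = u :=
        fun u => (Equiv.symm_apply_eq _).2 rfl
      apply Subtype.ext
      change (((Equiv.ofInjective (g e') (g_inj e'))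
        ((Equiv.ofInjective (f e) (f_inj e)).symm _) : Set.range (g e')) : Function.End Ω) = _
      rw [h1]
      change g e' ((Equiv.ofInjective (f e) (f_inj e)).symm ⟨f e (max s t), _, rfl⟩) =
        g e' ((Equiv.ofInjective (f e) (f_inj e)).symm ⟨f e s, s, rfl⟩) *
          g e' ((Equiv.ofInjective (f e) (f_inj e)).symm ⟨f e t, t, rfl⟩)
      rw [h2, h2, h2, g_mul])

theorem discrete_S {Ω : Type} (e : Ω ≃ ℕ∞) : top (S e) = ⊥ := by
  let _ : TopologicalSpace Ω := ⊥
  have : DiscreteTopology Ω := ⟨rfl⟩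
  let _ : TopologicalSpace (S e) := top (S e)
  have h0 : Continuous (fun (k : S e) (x : Ω) => (k : Function.End Ω) x) := continuous_induced_dom
  have h1 : Continuous (fun k : S e => (k : Function.End Ω) (e.symm ⊥)) :=
    (continuous_apply (e.symm ⊥)).comp h0
  have h2 : Function.Injective (fun k : S e => (k : Function.End Ω) (e.symm ⊥)) := by
    rintro ⟨_, s, rfl⟩ ⟨_, t, rfl⟩ h
    have : s = t := by simpa [f] using h
    subst this
    rfl
  exact (DiscreteTopology.of_continuous_injective h1 h2).eq_bot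

/-- For every countably infinite set `Ω` there is a closed submonoid of `Ω ^ Ω` which has automatic
continuity, but not automatic homeomorphicity, with respect to the closed submonoids of
`Ω ^ Ω`. -/
theorem result (Ω : Type) [Countable Ω] [Infinite Ω] :
    ∃ S : Submonoid (Function.End Ω), IsClosedMonoid S ∧ AutomaticContinuity S ∧
      ¬ AutomaticHomeomorphicity S := by
  classical
  have : Infinite (ℕ∞) := inferInstance
  obtain ⟨e⟩ : Nonempty (Ω ≃ ℕ∞) := nonempty_equiv_of_countable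
  obtain ⟨e'⟩ : Nonempty (Ω ≃ ℕ × ℕ) := nonempty_equiv_of_countable
  refine ⟨S e, S_closed e, ?_, ?_⟩
  · intro T _ ξ
    rw [discrete_S e]
    exact continuous_bot
  · intro hah
    have h1 := hah (T e') (T_closed e') (iso e e')
    -- the topology of `T` is discrete
    have h2 : top (T e') = ⊥ := by
      let _ : TopologicalSpace (S e) := top (S e)
      let _ : TopologicalSpace (T e') := top (T e')
      have hd : DiscreteTopology (S e) := ⟨discrete_S e⟩
      have h3 : IsHomeomorph (iso e e') := h1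
      exact (h3.homeomorph.symm.isEmbedding.discreteTopology).eq_bot
    -- but the point `g ⊤` is not isolated
    have h3 : {(⟨g e' ⊤, ⊤, rfl⟩ : T e')} ∈ @nhds _ (top (T e')) (⟨g e' ⊤, ⊤, rfl⟩ : T e') := by
      rw [h2]
      let _ : TopologicalSpace (T e') := ⊥
      have : DiscreteTopology (T e') := ⟨rfl⟩
      exact (isOpen_discrete _).mem_nhds (Set.mem_singleton _)
    obtain ⟨F, hF⟩ := (Pool.Agent.R603.mem_nhds_pwTop
      (fun k : T e' => ((k : Function.End Ω) : Ω → Ω)) (⟨g e' ⊤, ⊤, rfl⟩ : T e') _).1 h3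
    let N := F.sup (fun x => (e' x).1)
    have h4 := hF ⟨g e' (N : ℕ∞), _, rfl⟩ (by
      intro x hx
      have h5 : ((e' x).1 : ℕ∞) ≤ N := by
        exact_mod_cast Finset.le_sup (f := fun x => (e' x).1) hx
      change g e' (N : ℕ∞) x = g e' ⊤ x
      simp only [g]
      rw [min_eq_right h5, min_eq_right le_top])
    have h5 : g e' (N : ℕ∞) = g e' ⊤ := congrArg Subtype.val (Set.mem_singleton_iff.1 h4)
    have h6 := g_inj e' h5
    exact absurd h6 (by simp)

end Pool.Agent.Results.MP_fafee5_lc.CountableExample
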