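import Pool.Agent.R603.Mon

set_option autoImplicit false

/-!
# Automatic continuity implies automatic homeomorphicity for oligomorphic closed monoids

The definitions are in `Pool.Agent.R603.Mon`. Let `S` be a closed submonoid of `Ω ^ Ω`, `Ω` countable,
whose group `G` of invertible elements is oligomorphic. Then every Hausdorff semigroup topology on
`S` that is coarser than the topology of pointwise convergence is equal to it (`minimal_monoid`).

Idea of the proof: let `f_i → f` in the coarser topology with `f_i (a) ≠ f (a)`. Since `G` is
oligomorphic, there are `g_i ∈ G` such that, after passing to a finer net, both `g_i` and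
`g_i f_i` converge pointwise, to `s` and `u`. Then `g_i f_i` converges to `s f` in the coarser
topology, hence `u = s f`, and `g_i (f_i (a)) = u (a) = s (f (a)) = g_i (f (a))` for some `i`.
-/

namespace Pool.Agent.Results.MP_fafee5_lc.OligomorphicCase

open Pool.Agent.R603.Mon

/-- Let `S` be a closed submonoid of `Ω ^ Ω`, where `Ω` is countable, whose group of invertible
elements has finitely many orbits on `Ω ^ n` for every `n`.

1. Every injective continuous semigroup homomorphism from `S` to a transformation monoid `T` on an
arbitrary set is a topological embedding.
2. If `S` has automatic continuity with respect to the closed submonoids of `Ω ^ Ω` then it has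
automatic homeomorphicity with respect to the closed submonoids of `Ω ^ Ω`. -/
theorem result (Ω : Type) [Countable Ω] (S : Submonoid (Function.End Ω)) (hS : IsClosedMonoid S)
    (hol : Oligomorphic S) :
    (∀ (Ω' : Type) (T : Submonoid (Function.End Ω')) (ξ : S →ₙ* T), Function.Injective ξ →
      @Continuous S T (top S) (top T) ξ → @Topology.IsEmbedding S T (top S) (top T) ξ) ∧
    (AutomaticContinuity S → AutomaticHomeomorphicity S) := by
  have h1 : ∀ (Ω' : Type) (T : Submonoid (Function.End Ω')) (ξ : S →ₙ* T), Function.Injective ξ →
      @Continuous S T (top S) (top T) ξ → @Topology.IsEmbedding S T (top S) (top T) ξ := by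
    intro Ω' T ξ hinj hc
    exact @Topology.IsEmbedding.mk S T (top S) (top T) ξ
      (@Topology.IsInducing.mk S T (top S) (top T) ξ
        (embedding_of_continuous S hS hol T ξ hinj hc)) hinj
  refine ⟨h1, fun hac T hT ξ => ?_⟩
  have hc := hac T hT (ξ : S →ₙ* T)
  have he := h1 Ω T (ξ : S →ₙ* T) ξ.injective hc
  let _ : TopologicalSpace S := top S
  let _ : TopologicalSpace T := top T
  have he' : Topology.IsEmbedding ξ := he
  refine ⟨hc, ?_, ξ.bijective⟩
  apply he'.isInducing.isOpenMap
  rw [ξ.surjective.range_eq]
  exact isOpen_univ

end Pool.Agent.Results.MP_fafee5_lc.OligomorphicCase
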